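import Pool.Agent.Helper123.CRX.Stmt

set_option autoImplicit false

open Topology Filter Set
open scoped ContDiff

namespace Pool.Agent.Results.MP_2184e2_an.NoExtension

open Pool.Agent.Helper123.CRS

/-- Negated form of Q1: in `ℂ⁴` there are real-analytic CR manifolds `M₁` (CR dimension `1`) and
`M₂` (CR dimension `3`), both satisfying condition (L), and a CR mapping `f : M₁ → M₂` of class
`C^∞` such that no holomorphic map `F` on an open set `U ⊇ M₁` satisfies `F = f` on `M₁`. -/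
theorem result : ∃ (M₁ M₂ : Set (Cn 4)) (f : Cn 4 → Cn 4),
    (RealAnalyticSubmanifold M₁ ∧ HasCRDim M₁ 1 ∧ CondL M₁) ∧
    (RealAnalyticSubmanifold M₂ ∧ HasCRDim M₂ 3 ∧ CondL M₂) ∧
    IsCompact M₁ ∧ IsCompact M₂ ∧ SmoothCRMap M₁ M₂ f ∧
    ¬ ∃ (U : Set (Cn 4)) (F : Cn 4 → Cn 4), IsOpen U ∧ M₁ ⊆ U ∧ DifferentiableOn ℂ F U ∧
      EqOn F f M₁ :=
  main

end Pool.Agent.Results.MP_2184e2_an.NoExtension
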